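import Pool.Agent.helper98.RPQ.SpecR

set_option autoImplicit false

open scoped MatrixGroups ContDiff Topology UpperHalfPlane ComplexConjugate ENNReal
open UpperHalfPlane MeasureTheory Filter Set

namespace Pool.Agent.RPQ

open Pool.Agent.RS
open Pool.Agent.MS (BA BB st pf gk Dk amk)

noncomputable section

/-- the constants of CNT for all `N' ≤ N` -/
lemma WEX_cnt (hCNT : CNT_stmt) (Γ : Subgroup SL(2, ℝ)) (κ : ℝ → ℝ) (C η ε : ℝ) (N : ℕ) (hΓ : QU.SurfaceGroup Γ) (hC : 1 ≤ C)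
    (hη : 0 < η) (hη' : η ≤ 1 / 20) (hε : 0 < ε) (hε' : ε ≤ 1 / 20) :
    ∃ D ρ10 R0 : ℝ, 1 ≤ D ∧ 0 < ρ10 ∧ 1 ≤ R0 ∧ ∀ C' : ℝ, D ≤ C' → ∀ N' : ℕ, 1 ≤ N' → N' ≤ N →
      ∀ (C0 ρ ρ1 K R : ℝ) (J : ℕ) (p : Fin J → ℍ) (χ : Fin J → ℍ → ℝ) (nc : ℕ) (g h : SL(2, ℝ)) (b : ℕ → SL(2, ℝ)),
        R0 ≤ R → 0 < ρ → R ^ (-(η / 4)) ≤ ρ1 → ρ1 ≤ ρ10 → 8 / ρ ≤ K → nc + C' * (N' * tau R + 1) / ρ1 ≤ ρ1 / (8 * ρ) →
        Net Γ κ ρ C0 J p χ → (∀ j < N', b j ∈ Bx C η ε R) → 0 ≤ Real.log (1 / ρ1) →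
          {γ' : Γ | ∃ b' : ℕ → SL(2, ℝ), (∀ j < N', b' j ∈ Bx C η ε R) ∧ pth (tau R) g b' N' = (γ' : SL(2, ℝ)) * h ∧ Und χ K (tau R) N' nc g g b b'}.Finite ∧
          ({γ' : Γ | ∃ b' : ℕ → SL(2, ℝ), (∀ j < N', b' j ∈ Bx C η ε R) ∧ pth (tau R) g b' N' = (γ' : SL(2, ℝ)) * h ∧ Und χ K (tau R) N' nc g g b b'}.ncard : ℝ) ≤
            (C' * (N' * tau R + 1)) ^ (N' * tau R / (Real.log (1 / ρ1) / 2) + 3) := by
  have hx := fun k : ℕ => hCNT Γ κ C η ε (k + 1) hΓ hC hη hη' hε hε' (Nat.le_add_left 1 k)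
  choose c r s h1 h2 h3 h4 h5 using hx
  have hc0 : ∀ k, 0 ≤ c k := fun k => le_trans zero_le_one (h1 k)
  have hs0 : ∀ k, 0 ≤ s k := fun k => le_trans zero_le_one (h4 k)
  have hr0 : ∀ k, 0 ≤ (r k)⁻¹ := fun k => (inv_pos.mpr (h2 k)).le
  have hcs : 0 ≤ ∑ k ∈ Finset.range N, c k := Finset.sum_nonneg fun k _ => hc0 k
  have hss : 0 ≤ ∑ k ∈ Finset.range N, s k := Finset.sum_nonneg fun k _ => hs0 k
  have hrs : 0 ≤ ∑ k ∈ Finset.range N, (r k)⁻¹ := Finset.sum_nonneg fun k _ => hr0 k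
  refine ⟨1 + ∑ k ∈ Finset.range N, c k, (8 + ∑ k ∈ Finset.range N, (r k)⁻¹)⁻¹, 1 + ∑ k ∈ Finset.range N, s k,
    by linarith, inv_pos.mpr (by linarith), by linarith, ?_⟩
  intro C' hC' N' hN1 hN2 C0 ρ ρ1 K R J p χ nc g h b hR hρ hρ1 hρ10 hK hnc hnet hb hlog
  obtain ⟨k, rfl⟩ : ∃ k, N' = k + 1 := ⟨N' - 1, by omega⟩
  have hk : k ∈ Finset.range N := Finset.mem_range.mpr (by omega)
  have e1 : c k ≤ ∑ k ∈ Finset.range N, c k := Finset.single_le_sum (f := c) (fun k _ => hc0 k) hk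
  have e2 : s k ≤ ∑ k ∈ Finset.range N, s k := Finset.single_le_sum (f := s) (fun k _ => hs0 k) hk
  have e3 : (r k)⁻¹ ≤ ∑ k ∈ Finset.range N, (r k)⁻¹ := Finset.single_le_sum (f := fun k => (r k)⁻¹) (fun k _ => hr0 k) hk
  have hRk : s k ≤ R := by linarith
  have hR1 : 1 ≤ R := le_trans (h4 k) hRk
  have hck : c k ≤ C' := by linarith
  have hrk : ρ1 ≤ r k := by
    refine le_trans hρ10 ?_
    rw [inv_le_comm₀ (by linarith) (h2 k)]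
    linarith
  have hρ1p : 0 < ρ1 := lt_of_lt_of_le (Real.rpow_pos_of_pos (lt_of_lt_of_le one_pos hR1) _) hρ1
  have htau : 0 ≤ tau R := by
    unfold tau
    exact div_nonneg (Real.log_nonneg hR1) (by norm_num)
  have hm : 0 ≤ ((k + 1 : ℕ) : ℝ) * tau R + 1 := by positivity
  have hnc' : (nc : ℝ) + c k * (((k + 1 : ℕ) : ℝ) * tau R + 1) / ρ1 ≤ ρ1 / (8 * ρ) := by
    refine le_trans ?_ hnc
    have : c k * (((k + 1 : ℕ) : ℝ) * tau R + 1) / ρ1 ≤ C' * (((k + 1 : ℕ) : ℝ) * tau R + 1) / ρ1 :=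
      div_le_div_of_nonneg_right (mul_le_mul_of_nonneg_right hck hm) hρ1p.le
    linarith
  obtain ⟨q1, q2⟩ := h5 k C0 ρ ρ1 K R J p χ nc g h b hRk hρ hρ1 hrk hK hnc' hnet hb
  refine ⟨q1, le_trans q2 ?_⟩
  refine Real.rpow_le_rpow (mul_nonneg (hc0 k) hm) (mul_le_mul_of_nonneg_right hck hm) ?_
  have : 0 ≤ ((k + 1 : ℕ) : ℝ) * tau R / (Real.log (1 / ρ1) / 2) :=
    div_nonneg (mul_nonneg (Nat.cast_nonneg _) htau) (div_nonneg hlog (by norm_num))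
  linarith

lemma WEX_nst (l : List ℕ) (h : 1 ≤ l.length) : 1 ≤ nst l := by
  cases l with
  | nil => simp at h
  | cons n l =>
    unfold nst
    rw [List.map_cons, List.sum_cons]
    omega

theorem WEX_proof (hWXN : WXN_stmt) (hPAR : PAR_stmt) (hCBE : CBE_stmt) (hUTM : UTM_stmt) (hMCV : MCV_stmt) (hBLK : BLK_stmt) (hCNT : CNT_stmt) : WEX_stmt := by
  intro Γ F α β κ C0 B θ C1 L N hΓ hF hα hβ hκ hB hθ hC1 hL hBL
  have hNL : (0 : ℝ) < 100 * ((N : ℝ) + L + 2) := by positivity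
  obtain ⟨η, hηdef⟩ : ∃ η : ℝ, η = 1 / (100 * ((N : ℝ) + L + 2)) := ⟨_, rfl⟩
  have hη : 0 < η := by rw [hηdef]; positivity
  have hηm : (100 * ((N : ℝ) + L + 2)) * η = 1 := by
    rw [hηdef]
    field_simp
  have hη' : η ≤ 1 / 20 := by
    have h1 : 0 ≤ (N : ℝ) * η := by positivity
    have h2 : 0 ≤ (L : ℝ) * η := by positivity
    nlinarith
  obtain ⟨C2, RU, hC2, hRU, hU⟩ := hUTM α β hα hβ η η hη hη' hη hη'
  refine ⟨η, η, C2, hη, hη', hη, hη', hC2, ?_⟩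
  intro C hC
  have hC1' : 1 ≤ C := le_trans hC2 hC
  obtain ⟨cM, RM, hcM, hRM, hM⟩ := hMCV C η η N hC1' hη hη' hη hη'
  obtain ⟨cB, RB, hcB, hRB, hBl⟩ := hBLK Γ C η η N hΓ hC1' hη hη' hη hη'
  obtain ⟨cC, ρ10, RC, hcC, hρ10, hRC, hCn⟩ := WEX_cnt hCNT Γ κ C η η N hΓ hC1' hη hη' hη hη'
  obtain ⟨C', hC'def⟩ : ∃ C' : ℝ, C' = cM + cB + cC := ⟨_, rfl⟩
  have hC'1 : 1 ≤ C' := by linarith
  obtain ⟨RW, hRW, hW⟩ := hWXN N L η η θ B (max C1 1) C' hL hη hη (by nlinarith [mul_nonneg (Nat.cast_nonneg (α := ℝ) N) hη.le, mul_nonneg (Nat.cast_nonneg (α := ℝ) L) hη.le])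
    hθ hB (le_max_right _ _) hC'1 hBL
  obtain ⟨RP, hRP, hP⟩ := hPAR (N + 1) η (2 * N + B + 10) C' ρ10 (8 * ((N + 1 : ℕ) : ℝ)) (Nat.le_add_left 1 N) hη
    (by have := Nat.cast_nonneg (α := ℝ) N; linarith) hC'1 hρ10 le_rfl
  refine ⟨8 * ((N + 1 : ℕ) : ℝ), 3 + RU + RM + RB + RC + RW + RP, ?_, by linarith, ?_⟩
  · push_cast
    have := Nat.cast_nonneg (α := ℝ) N
    linarith
  intro R ρ K J p χ A l hR hρ1 hρ2 hK hnet hA hinv hvol hlen hstp hsum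
  have hRU' : RU ≤ R := by linarith
  have hRM' : RM ≤ R := by linarith
  have hRB' : RB ≤ R := by linarith
  have hRC' : RC ≤ R := by linarith
  have hRW' : RW ≤ R := by linarith
  have hRP' : RP ≤ R := by linarith
  have hR3 : 3 ≤ R := by linarith
  have hR0 : 0 < R := by linarith
  have hlog1 : 1 ≤ Real.log R := by
    rw [Real.le_log_iff_exp_le hR0]
    have := Real.exp_one_lt_d9
    linarith
  have hlog0 : 0 < Real.log R := by linarith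
  have hρ : 0 < ρ := lt_of_lt_of_le (by positivity) hρ1
  obtain ⟨nc, n1, n2, n3, n4⟩ := hP R ρ hRP' hρ hρ2
  have hnst1 : 1 ≤ nst l := WEX_nst l (by rw [hlen]; exact hL)
  have hnstN : nst l ≤ N := hsum
  obtain ⟨n5, n6⟩ := n4 (nst l) hnst1 (le_trans hnstN (Nat.le_succ N))
  have hlogρ : 0 ≤ Real.log (1 / (Real.log R) ^ (-(8 * ((N + 1 : ℕ) : ℝ)))) := by
    rw [Real.rpow_neg hlog0.le, one_div, inv_inv]
    exact Real.log_nonneg (Real.one_le_rpow hlog1 (by positivity))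
  obtain ⟨u1, u2, u3⟩ := hU C R hC hRU'
  have hR8 : 0 ≤ R ^ (1 / 8 : ℝ) := Real.rpow_nonneg hR0.le _
  have hWH : WH Γ F N L η η θ B (max C1 1) C' C R K J nc ⌊R ^ (1 / 8 : ℝ)⌋₊ χ (ut β α C η η R) A l := by
    refine ⟨hnet.inv, u1, u3, hA, hinv, ?_, n1, hlen, hstp, hnstN, ?_, ?_, ?_, Nat.floor_le hR8⟩
    · refine le_trans hvol (ENNReal.ofReal_le_ofReal ?_)
      exact mul_le_mul_of_nonneg_right (le_max_left _ _) (Real.rpow_nonneg hR0.le _)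
    · intro n hn g h
      refine le_trans (hM R hRM' n hn g h).1 (ENNReal.ofReal_le_ofReal ?_)
      exact mul_le_mul_of_nonneg_right (by linarith) (Real.rpow_nonneg hR0.le _)
    · intro n hn hn' g h
      refine le_trans (hBl R hRB' n hn hn' g h) (ENNReal.ofReal_le_ofReal ?_)
      exact mul_le_mul_of_nonneg_right (by linarith) (Real.rpow_nonneg hR0.le _)
    · intro g h b hb hpth
      obtain ⟨m1, m2⟩ := hCn C' (by linarith) (nst l) hnst1 hnstN C0 ρ _ K R J p χ nc g h b hRC' hρ n2 n3 hK n5 hnet hb hlogρ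
      have m3 := Nat.le_floor (le_trans m2 n6)
      rw [← m1.cast_ncard_eq]
      exact_mod_cast m3
  have key := hW Γ F C R K J nc ⌊R ^ (1 / 8 : ℝ)⌋₊ χ (ut β α C η η R) A l hΓ hF hRW' hC1' hWH
  rw [(hCBE J).2.2, lintegral_smul_measure, smul_eq_mul, mul_comm]
  exact mul_le_mul_left key _

end

end Pool.Agent.RPQ
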